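import Pool.Agent.Helper794.Modes.Fin

/-!
# Modes of Gaussian mixtures: `M(d,k) > binom (d+k-1) d` for all `d ≥ 2`, `k ≥ 3`

The definitions (`gaussianDensity`, `GaussianMixture`, `GaussianMixture.density`, `IsMode`,
`maxModes`) are in `Pool.Agent.Helper794.Modes.Defs`.
-/

namespace Pool.Agent.Results.MP_1f4710_co.GhostMode

open Pool.Agent.Helper794.Modes

/-- For all `d ≥ 2` and `k ≥ 3`, the maximum number `M(d,k)` of modes of a mixture of `k` normal
distributions in dimension `d` is at least `binom (d+k-1) d + 1`. -/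
theorem result : ∀ d k : ℕ, 2 ≤ d → 3 ≤ k →
    (((d + k - 1).choose d + 1 : ℕ) : ℕ∞) ≤ maxModes d k := by
  intro d k hd hk
  obtain ⟨m, rfl⟩ := Nat.exists_eq_add_of_le' hd
  obtain ⟨k', rfl⟩ := Nat.exists_eq_add_of_le' hk
  exact strict_aux k' m

end Pool.Agent.Results.MP_1f4710_co.GhostMode
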