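import Pool.Agent.Helper794.Modes.Lower

/-!
# Modes of Gaussian mixtures: the lower bound `M(d,k) ≥ binom (d+k-1) d`

The definitions (`gaussianDensity`, `GaussianMixture`, `GaussianMixture.density`, `IsMode`,
`maxModes`) are in `Pool.Agent.Helper794.Modes.Defs`.
-/

namespace Pool.Agent.Results.MP_1f4710_co.LowerBound

open Pool.Agent.Helper794.Modes

/-- For all `d ≥ 1` and `k ≥ 1`, the maximum number `M(d,k)` of modes of a mixture of `k` normal
distributions in dimension `d` is at least `binom (d+k-1) d`. -/
theorem result : ∀ d k : ℕ, 1 ≤ d → 1 ≤ k → ((d + k - 1).choose d : ℕ∞) ≤ maxModes d k :=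
  fun d k hd hk => lower d k hd hk

end Pool.Agent.Results.MP_1f4710_co.LowerBound
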